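import Pool.Agent.Lib.MP_405077_mp.H94.Basic

/-!
# Module KERN: the reflection kernel identity
-/

set_option autoImplicit false

open MeasureTheory Set Filter Topology

namespace Pool.Agent.Lib.MP_405077_mp.H76

open Pool.Agent.Lib.MP_405077_mp

section

variable {u : E3 → ℝ}

theorem cont_grad (hu : ContDiff ℝ 1 u) : Continuous (gradient u) :=
  (InnerProductSpace.toDual ℝ E3).symm.continuous.comp (hu.continuous_fderiv (by norm_num))

theorem supp_grad (hc : HasCompactSupport u) : HasCompactSupport (gradient u) := by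
  have h : HasCompactSupport (fderiv ℝ u) := hc.fderiv (𝕜 := ℝ)
  exact h.comp_left (g := (InnerProductSpace.toDual ℝ E3).symm) (by simp)

theorem bc_u (hu : ContDiff ℝ 1 u) (hc : HasCompactSupport u) : BC u := by
  obtain ⟨R, -, hR⟩ := hc.exists_pos_le_norm
  exact H94.BC_of_cont hu.continuous (r := R) (fun x hx => hR x hx.le)

theorem bc_ngrad (hu : ContDiff ℝ 1 u) (hc : HasCompactSupport u) :
    BC (fun y => ‖gradient u y‖) := by
  obtain ⟨R, -, hR⟩ := (supp_grad hc).exists_pos_le_norm
  exact H94.BC_of_cont (cont_grad hu).norm (r := R) (fun x hx => by rw [hR x hx.le, norm_zero])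

theorem bc_igrad (hu : ContDiff ℝ 1 u) (hc : HasCompactSupport u) (a : E3) :
    BC (fun y => inner ℝ a (gradient u y)) := by
  obtain ⟨R, -, hR⟩ := (supp_grad hc).exists_pos_le_norm
  exact H94.BC_of_cont (continuous_const.inner (cont_grad hu)) (r := R)
    (fun x hx => by rw [hR x hx.le, inner_zero_right])

theorem locInt (hPot : PotStatement) : LocallyIntegrable (fun t : E3 => ‖t‖⁻¹) := by
  rw [locallyIntegrable_iff]
  intro K hK
  obtain ⟨r, hr⟩ := hK.isBounded.subset_closedBall (0 : E3)
  refine IntegrableOn.mono_set ?_ hr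
  have hq : BC (indicator (Metric.closedBall (0 : E3) r) (fun _ => (1 : ℝ))) := by
    refine ⟨measurable_const.indicator Metric.isClosed_closedBall.measurableSet,
      ⟨1, fun x => ?_⟩, ⟨r, fun x hx => ?_⟩⟩
    · by_cases h : x ∈ Metric.closedBall (0 : E3) r
      · rw [indicator_of_mem h]; simp
      · rw [indicator_of_notMem h]; simp
    · rw [indicator_of_notMem]
      simpa using hx
  have h := (hPot _ hq).1 0
  rw [← integrable_indicator_iff Metric.isClosed_closedBall.measurableSet]
  refine h.congr (Eventually.of_forall (fun y => ?_))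
  by_cases hy : y ∈ Metric.closedBall (0 : E3) r
  · simp only [indicator_of_mem hy, zero_sub, norm_neg]
    rw [one_div]
  · simp only [indicator_of_notMem hy, zero_div]

/-- The derivative of the potential falls on the function. -/
theorem pot_grad (hPot : PotStatement) (hu : ContDiff ℝ 1 u) (hc : HasCompactSupport u)
    (x a : E3) :
    ∫ y, inner ℝ a (gradient u y) / ‖x - y‖ = inner ℝ a (field u x) := by
  set f : E3 → ℝ := fun t => ‖t‖⁻¹ with hf
  have h1 := HasCompactSupport.hasFDerivAt_convolution_right (𝕜 := ℝ) (μ := volume)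
    (L := ContinuousLinearMap.mul ℝ ℝ) hc (locInt hPot) hu x
  have e1 : convolution f u (ContinuousLinearMap.mul ℝ ℝ) volume = pot u := by
    funext z
    rw [convolution_def]
    unfold pot
    rw [← integral_sub_left_eq_self (fun y => u y / ‖z - y‖) volume z]
    refine integral_congr_ae (Eventually.of_forall (fun t => ?_))
    simp only [hf, ContinuousLinearMap.mul_apply', sub_sub_cancel]
    rw [div_eq_inv_mul]
  rw [e1] at h1
  have h2 := (hPot u (bc_u hu hc)).2.2.2.2 x
  have h3 := h1.unique h2.hasFDerivAt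
  have h4 := congrArg (fun T => T a) h3
  beta_reduce at h4
  rw [InnerProductSpace.toDual_apply_apply] at h4
  rw [real_inner_comm, ← h4]
  rw [convolution_def, ContinuousLinearMap.integral_apply]
  · rw [← integral_sub_left_eq_self (fun y => inner ℝ a (gradient u y) / ‖x - y‖) volume x]
    refine integral_congr_ae (Eventually.of_forall (fun t => ?_))
    simp only [sub_sub_cancel, ContinuousLinearMap.precompR_apply, hf,
      ContinuousLinearMap.mul_apply']
    rw [div_eq_inv_mul]
    congr 1
    rw [real_inner_comm]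
    unfold gradient
    rw [← InnerProductSpace.toDual_apply_apply, LinearIsometryEquiv.apply_symm_apply]
    rfl
  · have := HasCompactSupport.convolutionExists_right (𝕜 := ℝ) (μ := volume)
      (L := (ContinuousLinearMap.mul ℝ ℝ).precompR E3) (hc.fderiv (𝕜 := ℝ)) (locInt hPot)
      (hu.continuous_fderiv (by norm_num))
    exact this x

/-! ### Polar coordinates around a point -/

theorem hasDeriv_ray (hu : ContDiff ℝ 1 u) (x w : E3) (r : ℝ) :
    HasDerivAt (fun r : ℝ => u (x + r • w)) (inner ℝ w (gradient u (x + r • w))) r := by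
  have h1 : HasFDerivAt u (fderiv ℝ u (x + r • w)) (x + r • w) :=
    (hu.differentiable (by norm_num) _).hasFDerivAt
  have h2 : HasDerivAt (fun r : ℝ => x + r • w) w r := by
    have := (hasDerivAt_id r).smul_const w
    simpa using this.const_add x
  have h3 := h1.comp_hasDerivAt r h2
  have e : (fderiv ℝ u (x + r • w)) w = inner ℝ w (gradient u (x + r • w)) := by
    rw [real_inner_comm]
    unfold gradient
    rw [← InnerProductSpace.toDual_apply_apply, LinearIsometryEquiv.apply_symm_apply]
  rw [← e]
  exact h3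

/-- Integration by parts along a ray. -/
theorem ray_parts (hu : ContDiff ℝ 1 u) (hc : HasCompactSupport u) (x w : E3) (hw : ‖w‖ = 1) :
    ∫ r in Ioi (0 : ℝ), r * inner ℝ w (gradient u (x + r • w)) =
      - ∫ r in Ioi (0 : ℝ), u (x + r • w) := by
  obtain ⟨R, hR0, hR⟩ := hc.exists_pos_le_norm
  obtain ⟨R', hR'0, hR'⟩ := (supp_grad hc).exists_pos_le_norm
  have hn : ∀ r : ℝ, 0 ≤ r → r - ‖x‖ ≤ ‖x + r • w‖ := by
    intro r hr
    have h1 : ‖r • w‖ = r := by rw [norm_smul, hw, mul_one, Real.norm_eq_abs, abs_of_nonneg hr]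
    have h2 := norm_sub_le (x + r • w) x
    rw [add_sub_cancel_left, h1] at h2
    linarith
  have c1 : Continuous (fun r : ℝ => u (x + r • w)) := by
    have := hu.continuous
    fun_prop
  have c2 : Continuous (fun r : ℝ => r * inner ℝ w (gradient u (x + r • w))) := by
    have := cont_grad hu
    fun_prop
  have i1 : IntegrableOn (fun r : ℝ => u (x + r • w)) (Ioi 0) := by
    have : IntegrableOn (fun r : ℝ => u (x + r • w)) (Ioc 0 (R + ‖x‖)) :=
      (c1.integrableOn_Icc (a := 0) (b := R + ‖x‖)).mono_set Ioc_subset_Icc_self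
    refine this.of_forall_sdiff_eq_zero measurableSet_Ioi (fun r hr => ?_)
    have h1 : 0 < r := hr.1
    have h2 : R + ‖x‖ < r := by
      by_contra h
      exact hr.2 ⟨h1, not_lt.1 h⟩
    exact hR _ (by have := hn r h1.le; linarith)
  have i2 : IntegrableOn (fun r : ℝ => r * inner ℝ w (gradient u (x + r • w))) (Ioi 0) := by
    have : IntegrableOn (fun r : ℝ => r * inner ℝ w (gradient u (x + r • w)))
        (Ioc 0 (R' + ‖x‖)) :=
      (c2.integrableOn_Icc (a := 0) (b := R' + ‖x‖)).mono_set Ioc_subset_Icc_self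
    refine this.of_forall_sdiff_eq_zero measurableSet_Ioi (fun r hr => ?_)
    have h1 : 0 < r := hr.1
    have h2 : R' + ‖x‖ < r := by
      by_contra h
      exact hr.2 ⟨h1, not_lt.1 h⟩
    rw [hR' _ (by have := hn r h1.le; linarith), inner_zero_right, mul_zero]
  have hd : ∀ r : ℝ, HasDerivAt (fun r : ℝ => r * u (x + r • w))
      (u (x + r • w) + r * inner ℝ w (gradient u (x + r • w))) r := by
    intro r
    have h' : HasDerivAt (fun r : ℝ => r * u (x + r • w))
        (1 * u (x + r • w) + r * inner ℝ w (gradient u (x + r • w))) r :=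
      (hasDerivAt_id r).mul (hasDeriv_ray hu x w r)
    rwa [one_mul] at h'
  have ht : Tendsto (fun r : ℝ => r * u (x + r • w)) atTop (𝓝 0) := by
    refine tendsto_const_nhds.congr' ?_
    filter_upwards [eventually_ge_atTop (R + ‖x‖)] with r hr
    have h0 : 0 ≤ r := le_trans (by positivity) hr
    rw [hR _ (by have := hn r h0; linarith), mul_zero]
  have h := integral_Ioi_of_hasDerivAt_of_tendsto (a := 0)
    (f := fun r : ℝ => r * u (x + r • w))
    (hd 0).continuousAt.continuousWithinAt (fun r _ => hd r) (i1.add i2) ht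
  rw [zero_mul, sub_zero, integral_add i1 i2] at h
  linarith

/-- The field in polar coordinates. -/
theorem field_polar (hP : PolarStatement) (hPot : PotStatement) (hu : ContDiff ℝ 1 u)
    (hc : HasCompactSupport u) (x a : E3) :
    inner ℝ a (field u x) = ∫ ω : Metric.sphere (0 : E3) 1,
      inner ℝ a (ω : E3) * (∫ r in Ioi (0 : ℝ), u (x + r • (ω : E3))) ∂sph := by
  have hI := (hPot u (bc_u hu hc)).2.1 x
  have e1 : inner ℝ a (field u x) = ∫ y, u y / ‖x - y‖ ^ 3 * inner ℝ a (y - x) := by
    unfold field
    rw [← integral_inner hI a]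
    refine integral_congr_ae (Eventually.of_forall (fun y => ?_))
    beta_reduce
    rw [inner_smul_right]
  have hF : Integrable (fun z : E3 => u (x + z) / ‖z‖ ^ 3 * inner ℝ a z) := by
    have h1 := (hI.const_inner (𝕜 := ℝ) a).comp_add_right x
    refine h1.congr (Eventually.of_forall (fun z => ?_))
    beta_reduce
    rw [inner_smul_right, add_sub_cancel_right, add_comm z x]
    have : x - (x + z) = -z := by abel
    rw [this, norm_neg]
  have e2 : ∫ y, u y / ‖x - y‖ ^ 3 * inner ℝ a (y - x) =
      ∫ z, u (x + z) / ‖z‖ ^ 3 * inner ℝ a z := by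
    rw [← integral_add_left_eq_self (fun y => u y / ‖x - y‖ ^ 3 * inner ℝ a (y - x)) x]
    refine integral_congr_ae (Eventually.of_forall (fun z => ?_))
    beta_reduce
    have : x - (x + z) = -z := by abel
    rw [this, norm_neg, add_sub_cancel_left]
  rw [e1, e2, (hP.1 _ hF).2]
  refine integral_congr_ae (Eventually.of_forall (fun ω => ?_))
  beta_reduce
  rw [← integral_const_mul]
  refine setIntegral_congr_fun measurableSet_Ioi (fun r hr => ?_)
  have hr0 : (0 : ℝ) < r := hr
  have hω : ‖(ω : E3)‖ = 1 := by simp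
  beta_reduce
  rw [norm_smul, hω, mul_one, Real.norm_eq_abs, abs_of_pos hr0, inner_smul_right]
  field_simp

/-- The second part of the kernel. -/
theorem second_part (hP : PolarStatement) (hPot : PotStatement) (hu : ContDiff ℝ 1 u)
    (hc : HasCompactSupport u) (x a : E3) :
    Integrable (fun y => inner ℝ (x - y) a * inner ℝ (x - y) (gradient u y) / ‖x - y‖ ^ 3) ∧
    ∫ y, inner ℝ (x - y) a * inner ℝ (x - y) (gradient u y) / ‖x - y‖ ^ 3 =
      - inner ℝ a (field u x) := by
  have hg := cont_grad hu
  have hI := (hPot _ (bc_ngrad hu hc)).1 x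
  have hint : Integrable
      (fun y => inner ℝ (x - y) a * inner ℝ (x - y) (gradient u y) / ‖x - y‖ ^ 3) := by
    refine (hI.const_mul ‖a‖).mono' ?_ (Eventually.of_forall (fun y => ?_))
    · refine Measurable.aestronglyMeasurable ?_
      have m1 : Measurable (fun y : E3 => inner ℝ (x - y) a) := by fun_prop
      have m2 : Measurable (fun y : E3 => inner ℝ (x - y) (gradient u y)) := by
        have : Continuous (fun y : E3 => inner ℝ (x - y) (gradient u y)) := by fun_prop
        exact this.measurable
      have m3 : Measurable (fun y : E3 => ‖x - y‖ ^ 3) := by fun_prop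
      exact (m1.mul m2).div m3
    · rw [norm_div, norm_mul, norm_pow, norm_norm]
      have h1 := norm_inner_le_norm (𝕜 := ℝ) (x - y) a
      have h2 := norm_inner_le_norm (𝕜 := ℝ) (x - y) (gradient u y)
      by_cases h0 : ‖x - y‖ = 0
      · rw [h0]; simp
      have h3 : 0 < ‖x - y‖ := lt_of_le_of_ne (norm_nonneg _) (Ne.symm h0)
      rw [← mul_div_assoc, div_le_div_iff₀ (by positivity) h3]
      have h4 : ‖inner ℝ (x - y) a‖ * ‖inner ℝ (x - y) (gradient u y)‖ ≤
          (‖x - y‖ * ‖a‖) * (‖x - y‖ * ‖gradient u y‖) :=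
        mul_le_mul h1 h2 (norm_nonneg _) (by positivity)
      calc ‖inner ℝ (x - y) a‖ * ‖inner ℝ (x - y) (gradient u y)‖ * ‖x - y‖
          ≤ (‖x - y‖ * ‖a‖) * (‖x - y‖ * ‖gradient u y‖) * ‖x - y‖ :=
            mul_le_mul_of_nonneg_right h4 h3.le
        _ = ‖a‖ * ‖gradient u y‖ * ‖x - y‖ ^ 3 := by ring
  refine ⟨hint, ?_⟩
  have hF : Integrable (fun z : E3 =>
      inner ℝ a z * inner ℝ z (gradient u (x + z)) / ‖z‖ ^ 3) := by
    have h1 := hint.comp_add_right x
    refine h1.congr (Eventually.of_forall (fun z => ?_))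
    beta_reduce
    have e : x - (z + x) = -z := by abel
    rw [e, norm_neg, inner_neg_left, inner_neg_left, add_comm z x, real_inner_comm a z]
    ring
  have e2 : ∫ y, inner ℝ (x - y) a * inner ℝ (x - y) (gradient u y) / ‖x - y‖ ^ 3 =
      ∫ z, inner ℝ a z * inner ℝ z (gradient u (x + z)) / ‖z‖ ^ 3 := by
    rw [← integral_add_left_eq_self
      (fun y => inner ℝ (x - y) a * inner ℝ (x - y) (gradient u y) / ‖x - y‖ ^ 3) x]
    refine integral_congr_ae (Eventually.of_forall (fun z => ?_))
    beta_reduce
    have e : x - (x + z) = -z := by abel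
    rw [e, norm_neg, inner_neg_left, inner_neg_left, real_inner_comm a z]
    ring
  rw [e2, (hP.1 _ hF).2, field_polar hP hPot hu hc x a, ← integral_neg]
  refine integral_congr_ae (Eventually.of_forall (fun ω => ?_))
  have hω : ‖(ω : E3)‖ = 1 := by simp
  beta_reduce
  rw [← mul_neg, ← ray_parts hu hc x ω hω, ← integral_const_mul]
  refine setIntegral_congr_fun measurableSet_Ioi (fun r hr => ?_)
  have hr0 : (0 : ℝ) < r := hr
  beta_reduce
  rw [norm_smul, hω, mul_one, Real.norm_eq_abs, abs_of_pos hr0, inner_smul_right,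
    real_inner_smul_left]
  field_simp

theorem inner_kernel (hP : PolarStatement) (hPot : PotStatement) (hu : ContDiff ℝ 1 u)
    (hc : HasCompactSupport u) (x a : E3) :
    ∫ y, kerB (x - y) a (gradient u y) = 3 * inner ℝ a (field u x) := by
  obtain ⟨h1, h2⟩ := second_part hP hPot hu hc x a
  have h3 := (hPot _ (bc_igrad hu hc a)).1 x
  have e : ∀ y, kerB (x - y) a (gradient u y) = inner ℝ a (gradient u y) / ‖x - y‖ -
      2 * (inner ℝ (x - y) a * inner ℝ (x - y) (gradient u y) / ‖x - y‖ ^ 3) := by
    intro y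
    unfold kerB
    by_cases h0 : ‖x - y‖ = 0
    · rw [h0]; simp
    · field_simp
  rw [integral_congr_ae (Eventually.of_forall e), integral_sub h3 (h1.const_mul 2),
    integral_const_mul, h2, pot_grad hPot hu hc x a]
  ring

end

theorem kern (hP : PolarStatement) (hPot : PotStatement) (hG : GreenStatement) :
    KernStatement := by
  intro u hu hc
  have h1 : ∀ x, ∫ y, kerB (x - y) (gradient u x) (gradient u y) =
      3 * inner ℝ (field u x) (gradient u x) := by
    intro x
    rw [inner_kernel hP hPot hu hc, real_inner_comm]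
  rw [integral_congr_ae (Eventually.of_forall h1), integral_const_mul,
    hG u u (bc_u hu hc) hu hc]
  have h2 : ∫ x, u x * u x = ∫ x, u x ^ 2 := by
    refine integral_congr_ae (Eventually.of_forall (fun x => ?_))
    beta_reduce
    ring
  rw [h2]
  ring

end Pool.Agent.Lib.MP_405077_mp.H76
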